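import Mathlib
import Pool.Agent.H341Q.Club
import Pool.Agent.X211.HierEmb

/-!
For every infinite cardinal `κ` there is a `κ`-existentially closed group `G` with `κ < |G|` and
`|Aut G| ≤ |G| < 2 ^ |G|`.
-/

set_option autoImplicit false
open Cardinal Set Order

universe u

namespace Pool.Agent.Results.MP_cb6149_al.FewAutomorphisms

open Pool.Agent.X211

/-- The assignment `v` of elements of `H` to the variables makes all equations `w = 1`, `w ∈ E`,
and all inequations `w ≠ 1`, `w ∈ N`, true in `H`, where `ι : G → H` is the inclusion. The words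
`w` are elements of the free product of `G` and the free group on the set `X` of variables. -/
def Solves {G H X : Type u} [Group G] [Group H] (ι : G →* H) (v : X → H)
    (E N : Set (Monoid.Coprod G (FreeGroup X))) : Prop :=
  (∀ w ∈ E, Monoid.Coprod.lift ι (FreeGroup.lift v) w = 1) ∧
    ∀ w ∈ N, Monoid.Coprod.lift ι (FreeGroup.lift v) w ≠ 1

/-- `G` is `κ`-existentially closed: every system of fewer than `κ` equations and inequations
over `G` (in any set `X` of variables) that is solvable in some group containing `G` is solvable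
in `G`. -/
def IsExistentiallyClosed (κ : Cardinal.{u}) (G : Type u) [Group G] : Prop :=
  ∀ (X : Type u) (E N : Set (Monoid.Coprod G (FreeGroup X))), Cardinal.mk E < κ →
    Cardinal.mk N < κ →
    (∃ (H : Type u) (_ : Group H) (ι : G →* H) (v : X → H), Function.Injective ι ∧
      Solves ι v E N) →
    ∃ v : X → G, Solves (MonoidHom.id G) v E N

theorem exists_hierarchy (κ : Cardinal.{u}) (hκ : ℵ₀ ≤ κ) :
    Nonempty (Hier κ.out (Set κ.out) (succ κ).ord.ToType) := by
  classical
  let K : Type u := κ.out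
  have hK : #K = κ := Cardinal.mk_out κ
  let Z : Type u := Set K
  have hZ : #Z = 2 ^ κ := by rw [Cardinal.mk_set, hK]
  let J : Type u := (succ κ).ord.ToType
  have hJ : #J = succ κ := Cardinal.mk_ord_toType _
  have hinf : ℵ₀ ≤ (2 : Cardinal.{u}) ^ κ := hκ.trans (Cardinal.cantor κ).le
  have hS : #{S : Set (K → Z) // #S ≤ #K} ≤ 2 ^ κ := by
    have h1 : #(K → Z) = 2 ^ κ := by
      rw [← Cardinal.power_def, hZ, hK, ← Cardinal.power_mul, Cardinal.mul_eq_self hκ]
    refine (Cardinal.mk_bounded_set_le (K → Z) #K).trans ?_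
    rw [h1, max_eq_left hinf, hK, ← Cardinal.power_mul, Cardinal.mul_eq_self hκ]
  have hS1 : #{S : Set (K → Z) // #S ≤ #K} ≠ 0 := by
    rw [Cardinal.mk_ne_zero_iff]
    exact ⟨⟨∅, by simp⟩⟩
  have hcard : #Z = #(J × {S : Set (K → Z) // #S ≤ #K} × Z) := by
    rw [Cardinal.mk_prod, Cardinal.mk_prod]
    simp only [Cardinal.lift_id]
    rw [hJ, hZ, Cardinal.mul_eq_right hinf hS hS1,
      Cardinal.mul_eq_right hinf (succ_le_of_lt (Cardinal.cantor κ))
        (hκ.trans (le_succ κ) |> fun h => (Cardinal.aleph0_pos.trans_le h).ne')]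
  obtain ⟨e⟩ := Cardinal.eq.mp hcard
  exact exists_hier e

/-- For every infinite cardinal `κ` (regular or not) there is a `κ`-existentially closed group
`G` with `|G| > κ` and `|Aut G| ≤ |G| < 2 ^ |G|`. -/
theorem result : ∀ κ : Cardinal.{u}, ℵ₀ ≤ κ → ∃ (G : Type u) (_ : Group G),
    IsExistentiallyClosed κ G ∧ κ < Cardinal.mk G ∧ Cardinal.mk (MulAut G) ≤ Cardinal.mk G ∧
      Cardinal.mk (MulAut G) < 2 ^ Cardinal.mk G := by
  intro κ hκ
  obtain ⟨𝓗⟩ := exists_hierarchy κ hκ
  have hK : #κ.out = κ := Cardinal.mk_out κ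
  have hM : #(Set κ.out) = 2 ^ κ := by rw [Cardinal.mk_set, hK]
  have hinf : ℵ₀ ≤ (2 : Cardinal.{u}) ^ κ := hκ.trans (Cardinal.cantor κ).le
  have hMinf : ℵ₀ ≤ #(Set κ.out) := by rw [hM]; exact hinf
  have hreg : (succ κ).IsRegular := isRegular_succ hκ
  have hno : NoMaxOrder (succ κ).ord.ToType := Cardinal.noMaxOrder (hκ.trans (le_succ κ))
  have hne : Nonempty (succ κ).ord.ToType := by
    rw [← Cardinal.mk_ne_zero_iff, Cardinal.mk_ord_toType]
    exact hreg.ne_zero
  have hJ : ∀ S : Set (succ κ).ord.ToType, #S ≤ κ → ∃ j, ∀ s ∈ S, s < j := by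
    intro S hS
    apply Pool.Agent.H341Q.exists_bound
    rw [Ordinal.cof_toType, hreg.cof_ord]
    exact hS.trans_lt (lt_succ κ)
  have hJM : #(succ κ).ord.ToType ≤ #(Set κ.out) := by
    rw [Cardinal.mk_ord_toType, hM]
    exact succ_le_of_lt (Cardinal.cantor κ)
  have hG : #𝓗.Grp = 2 ^ #(Set κ.out) :=
    le_antisymm (Hier.mk_Grp_le hMinf) (Hier.le_mk_Grp hMinf)
  have hAut : #(MulAut 𝓗.Grp) ≤ #𝓗.Grp := by
    rw [hG]
    exact Hier.mk_Aut_le hMinf hJM
  refine ⟨𝓗.Grp, inferInstance, ?_, ?_, hAut, hAut.trans_lt (Cardinal.cantor _)⟩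
  · rintro X E N hE hN ⟨H, _, ι, v, hι, hEv, hNv⟩
    exact ec_of_emb hκ (fun A L _ j hA hL hj => Hier.emb hκ hK hM.ge hJ A L j hA hL hj)
      E N hE hN ι hι v hEv hNv
  · rw [hG, hM]
    exact (Cardinal.cantor κ).trans (Cardinal.cantor _)

end Pool.Agent.Results.MP_cb6149_al.FewAutomorphisms
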